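import Mathlib
import Pool.Agent.H11.Ann4

namespace Pool.Agent.Results.MP_9cde6c_al.InfiniteAnnihilator

open Pool.Agent.H11.Ann

section Defs

variable {G : Type} [Group G]

/-- Word length: the least `n` such that `g` is a product of `n` elements of `S`. -/
noncomputable def wordLength (S : Finset G) (g : G) : ℕ :=
  sInf {n | ∃ l : List G, l.length = n ∧ (∀ s ∈ l, s ∈ S) ∧ l.prod = g}

/-- The Cayley metric `d_S(x, y) = |x⁻¹ y|_S`. -/
noncomputable def cayleyDist (S : Finset G) (x y : G) : ℕ := wordLength S (x⁻¹ * y)

/-- The function `b_x(y) = d_S(x, y) - d_S(x, 1)`. -/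
noncomputable def metricFun (S : Finset G) (x : G) : G → ℝ :=
  fun y => (cayleyDist S x y : ℝ) - (cayleyDist S x 1 : ℝ)

/-- The metric-functional boundary: the closure of the set of all `b_x` in `ℝ^G` (pointwise
convergence) minus the set of all `b_x`. -/
def boundary (S : Finset G) : Set (G → ℝ) :=
  closure (Set.range (metricFun S)) \ Set.range (metricFun S)

/-- The annihilator of the boundary. -/
def annihilator (S : Finset G) : Set G := {x | ∀ h ∈ boundary S, h x = 0}

theorem mem_annihilator {S : Finset G} {x : G}
    (hfin : {y | cayleyDist S y x ≠ cayleyDist S y 1}.Finite) : x ∈ annihilator S := by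
  rintro h ⟨hcl, hnot⟩
  set F := {y | cayleyDist S y x ≠ cayleyDist S y 1} with hF
  have hsplit : Set.range (metricFun S) = metricFun S '' F ∪ metricFun S '' Fᶜ := by
    rw [← Set.image_union, Set.union_compl_self, Set.image_univ]
  rw [hsplit, closure_union, (hfin.image (metricFun S)).isClosed.closure_eq] at hcl
  rcases hcl with h1 | h1
  · exact absurd (Set.image_subset_range _ _ h1) hnot
  · have hclosed : IsClosed {g : G → ℝ | g x = 0} :=
      isClosed_eq (continuous_apply x) continuous_const
    refine closure_minimal ?_ hclosed h1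
    rintro _ ⟨y, hy, rfl⟩
    have : cayleyDist S y x = cayleyDist S y 1 := by
      by_contra hne; exact hy hne
    change (cayleyDist S y x : ℝ) - (cayleyDist S y 1 : ℝ) = 0
    rw [this, sub_self]

end Defs

/-- the generating set -/
noncomputable def gens : Finset GG :=
  (Set.Finite.preimage (f := fun g : GG => (g : Hs)) Subtype.val_injective.injOn
    finite_gen).toFinset

theorem mem_gens {g : GG} : g ∈ gens ↔ IsGen (g : Hs) := by
  unfold gens
  rw [Set.Finite.mem_toFinset]
  rfl

theorem wordLength_eq (g : GG) : wordLength gens g = len (g : Hs) := by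
  unfold wordLength len
  congr 1
  ext n
  constructor
  · rintro ⟨l, h1, h2, h3⟩
    refine ⟨l.map GG.subtype, by simpa using h1, ?_, ?_⟩
    · intro x hx
      rw [List.mem_map] at hx
      obtain ⟨y, hy, rfl⟩ := hx
      exact mem_gens.1 (h2 y hy)
    · rw [← h3]
      exact (map_list_prod GG.subtype l).symm
  · rintro ⟨l, h1, h2, h3⟩
    have hl : ∃ l' : List GG, l'.map GG.subtype = l := by
      clear h1 h3
      induction l with
      | nil => exact ⟨[], rfl⟩
      | cons x l ih =>
        obtain ⟨l', hl'⟩ := ih (fun y hy => h2 y (by simp [hy]))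
        exact ⟨⟨x, Subgroup.subset_closure (h2 x (by simp))⟩ :: l', by
          rw [List.map_cons, hl']; rfl⟩
    obtain ⟨l', rfl⟩ := hl
    refine ⟨l', by simpa using h1, fun s hs => mem_gens.2 (h2 _ (List.mem_map.2 ⟨s, hs, rfl⟩)), ?_⟩
    apply Subtype.ext
    rw [← h3]
    exact map_list_prod GG.subtype l'

/-- There are a finitely generated group `G` and a finite symmetric generating set `S` such that
the annihilator of the metric-functional boundary of `(G, d_S)` is infinite. -/
theorem result : ∃ (G : Type) (_ : Group G) (S : Finset G), (∀ s ∈ S, s⁻¹ ∈ S) ∧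
    Subgroup.closure (S : Set G) = ⊤ ∧ (annihilator S).Infinite := by
  refine ⟨GG, inferInstance, gens, ?_, ?_, ?_⟩
  · intro s hs
    rw [mem_gens] at *
    exact hs.inv
  · rw [eq_top_iff]
    rintro ⟨y, hy⟩ _
    obtain ⟨n, l, h1, h2, h3⟩ := exists_Sn hy
    have : ∀ l : List Hs, (∀ x ∈ l, IsGen x) → ∀ hl : l.prod ∈ GG,
        (⟨l.prod, hl⟩ : GG) ∈ Subgroup.closure ((gens : Finset GG) : Set GG) := by
      intro l
      induction l with
      | nil => intro _ _; exact Subgroup.one_mem _
      | cons x l ih =>
        intro hx hl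
        have hxg : IsGen x := hx x (by simp)
        have hlg : l.prod ∈ GG := mem_GG_of_Sn (Sn_of_list (fun z hz => hx z (by simp [hz])))
        have e : (⟨(x :: l).prod, hl⟩ : GG) =
            (⟨x, Subgroup.subset_closure hxg⟩ : GG) * ⟨l.prod, hlg⟩ :=
          Subtype.ext (List.prod_cons)
        rw [e]
        refine Subgroup.mul_mem _ (Subgroup.subset_closure ?_)
          (ih (fun z hz => hx z (by simp [hz])) hlg)
        exact mem_gens.2 hxg
    subst h3
    exact this l h2 hy
  · refine Set.infinite_of_injective_forall_mem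
      (f := fun m : ℕ => (⟨zc (Finsupp.single m 1), z_mem m⟩ : GG)) ?_ ?_
    · intro m n h
      exact z_inj (congrArg Subtype.val h)
    · intro m
      apply mem_annihilator
      have h1 := almost_all m
      have h2 : (fun y : GG => ((y : Hs))⁻¹) ⁻¹'
          {y | y ∈ GG ∧ len (zc (Finsupp.single m 1) * y) ≠ len y} |>.Finite :=
        h1.preimage (fun y _ z _ h => Subtype.ext (inv_injective h))
      refine h2.subset ?_
      intro y hy
      refine ⟨GG.inv_mem y.2, ?_⟩
      intro heq
      apply hy
      unfold cayleyDist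
      rw [wordLength_eq, wordLength_eq, mul_one]
      change len ((y : Hs)⁻¹ * zc (Finsupp.single m 1)) = len ((y : Hs)⁻¹)
      rw [← zc_comm]
      exact heq

end Pool.Agent.Results.MP_9cde6c_al.InfiniteAnnihilator
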